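import Pool.Agent.H5.EG.Spec3

set_option autoImplicit false

/-!
# Residues of a linear relation between logarithmic derivatives (helper30)
-/

namespace Pool.Agent.H30.EG.Resid

open Polynomial Pool.Agent.H5.EG

theorem resid : S_resid := by
  intro ι _ I l F z hF h
  set v : ι → ℕ := fun i => (F i).rootMultiplicity z with hv
  set G : ι → ℂ[X] := fun i => F i /ₘ (X - C z) ^ (v i) with hG
  have hFG : ∀ i, F i = (X - C z) ^ (v i) * G i := fun i =>
    (pow_mul_divByMonic_rootMultiplicity_eq (F i) z).symm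
  have hG0 : ∀ i ∈ I, (G i).eval z ≠ 0 := fun i hi =>
    eval_divByMonic_pow_rootMultiplicity_ne_zero z (hF i hi)
  have hder : ∀ i, (X - C z) * derivative (F i)
      = (X - C z) ^ (v i) * (C (v i : ℂ) * G i + (X - C z) * derivative (G i)) := by
    intro i
    rw [hFG i, derivative_mul, derivative_X_sub_C_pow]
    rcases Nat.eq_zero_or_pos (v i) with h0 | h0
    · rw [h0]
      simp
    · obtain ⟨n, hn⟩ : ∃ n, v i = n + 1 := ⟨v i - 1, by omega⟩
      rw [hn]
      simp only [Nat.add_sub_cancel]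
      rw [C_eq_natCast]
      ring
  have hsum : (X - C z) ^ (∑ i ∈ I, v i) * ∑ i ∈ I, C (l i) *
      (C (v i : ℂ) * G i + (X - C z) * derivative (G i)) * ∏ j ∈ I.erase i, G j = 0 := by
    have h1 : (X - C z) * ∑ i ∈ I, C (l i) * derivative (F i) * ∏ j ∈ I.erase i, F j = 0 := by
      rw [h, mul_zero]
    rw [← h1, Finset.mul_sum, Finset.mul_sum]
    refine Finset.sum_congr rfl fun i hi => ?_
    have h2 : ∏ j ∈ I.erase i, F j = (X - C z) ^ (∑ j ∈ I.erase i, v j) * ∏ j ∈ I.erase i, G j := by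
      rw [← Finset.prod_pow_eq_pow_sum, ← Finset.prod_mul_distrib]
      exact Finset.prod_congr rfl fun j _ => hFG j
    rw [h2, ← Finset.add_sum_erase I v hi, pow_add]
    have h3 : (X - C z) * (C (l i) * derivative (F i) *
        ((X - C z) ^ (∑ j ∈ I.erase i, v j) * ∏ j ∈ I.erase i, G j))
        = C (l i) * ((X - C z) * derivative (F i)) *
        ((X - C z) ^ (∑ j ∈ I.erase i, v j) * ∏ j ∈ I.erase i, G j) := by ring
    rw [h3, hder i]
    ring
  have hne : (X - C z) ^ (∑ i ∈ I, v i) ≠ 0 := pow_ne_zero _ (X_sub_C_ne_zero z)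
  have hzero := (mul_eq_zero.1 hsum).resolve_left hne
  have hev := congrArg (eval z) hzero
  rw [eval_finset_sum, eval_zero] at hev
  have h4 : ∀ i ∈ I, eval z (C (l i) *
      (C (v i : ℂ) * G i + (X - C z) * derivative (G i)) * ∏ j ∈ I.erase i, G j)
      = (l i * (v i : ℂ)) * ∏ j ∈ I, (G j).eval z := by
    intro i hi
    rw [← Finset.mul_prod_erase I (fun j => (G j).eval z) hi, eval_mul, eval_mul, eval_add,
      eval_mul, eval_mul, eval_sub, eval_X, eval_C, eval_C, eval_C, eval_prod]
    ring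
  rw [Finset.sum_congr rfl h4, ← Finset.sum_mul] at hev
  exact (mul_eq_zero.1 hev).resolve_right (Finset.prod_ne_zero_iff.2 hG0)

end Pool.Agent.H30.EG.Resid
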